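import Pool.Agent.H413.G.R_seed8.H494R3.NK.Stmts

/-! Task Reg of project H494-NK (helper798): the ring `R0` is von Neumann regular. -/

set_option autoImplicit false

namespace Pool.Agent.H798R3.NKReg

open Pool.Agent.H494R3.NK PowerSeries

/-- every linear map has a generalised inverse -/
lemma vN {V W : Type} [AddCommGroup V] [Module ℚ V] [AddCommGroup W] [Module ℚ W]
    (f : V →ₗ[ℚ] W) : ∃ g : W →ₗ[ℚ] V, ∀ v, f (g (f v)) = f v := by
  obtain ⟨s, hs⟩ := f.rangeRestrict.exists_rightInverse_of_surjective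
    (LinearMap.range_eq_top.mpr f.surjective_rangeRestrict)
  obtain ⟨g, hg⟩ := LinearMap.exists_extend s
  refine ⟨g, fun v => ?_⟩
  have h1 : g (f v) = s ⟨f v, LinearMap.mem_range_self f v⟩ :=
    LinearMap.congr_fun hg ⟨f v, LinearMap.mem_range_self f v⟩
  rw [h1]
  have h2 := LinearMap.congr_fun hs ⟨f v, LinearMap.mem_range_self f v⟩
  exact congrArg Subtype.val h2

/-- the ideal generated by `X ^ M` as a subspace -/
noncomputable def XM (M : ℕ) : Submodule ℚ (PowerSeries ℚ) :=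
  LinearMap.range (LinearMap.mulRight ℚ ((X : PowerSeries ℚ) ^ M))

lemma mem_XM (M : ℕ) (g : PowerSeries ℚ) : g ∈ XM M ↔ ∀ m < M, coeff m g = 0 := by
  rw [← X_pow_dvd_iff]
  constructor
  · rintro ⟨h, rfl⟩
    exact Dvd.intro_left h rfl
  · rintro ⟨h, rfl⟩
    exact ⟨h, mul_comm _ _⟩

lemma exists_M (U : Submodule ℚ (PowerSeries ℚ)) [FiniteDimensional ℚ U] :
    ∃ M : ℕ, ∀ g ∈ U, g ∈ XM M → g = 0 := by
  obtain ⟨M, hM⟩ : ∃ M : ℕ, ∀ M' : ℕ, Module.finrank ℚ (U ⊓ XM M : Submodule ℚ (PowerSeries ℚ)) ≤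
      Module.finrank ℚ (U ⊓ XM M' : Submodule ℚ (PowerSeries ℚ)) := by
    have h := (WellFounded.has_min (r := fun a b : ℕ => a < b) Nat.lt_wfRel.wf
      (Set.range fun M => Module.finrank ℚ (U ⊓ XM M : Submodule ℚ (PowerSeries ℚ)))
      ⟨_, ⟨0, rfl⟩⟩)
    obtain ⟨_, ⟨M, rfl⟩, hM⟩ := h
    exact ⟨M, fun M' => not_lt.mp (hM _ ⟨M', rfl⟩)⟩
  refine ⟨M, fun g hgU hgM => ?_⟩
  by_contra hg
  obtain ⟨k, hk⟩ : ∃ k, coeff k g ≠ 0 := by
    by_contra hno
    push Not at hno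
    exact hg (PowerSeries.ext fun n => by rw [hno n, map_zero])
  have hlt : (U ⊓ XM (M + k + 1) : Submodule ℚ (PowerSeries ℚ)) < U ⊓ XM M := by
    refine lt_of_le_of_ne (inf_le_inf_left _ ?_) ?_
    · intro f hf
      rw [mem_XM] at hf ⊢
      exact fun m hm => hf m (by omega)
    · intro h
      have h1 : g ∈ (U ⊓ XM (M + k + 1) : Submodule ℚ (PowerSeries ℚ)) := by
        rw [h]
        exact ⟨hgU, hgM⟩
      have h2 := (mem_XM _ _).mp h1.2 k (by omega)
      exact hk h2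
  have hfd : FiniteDimensional ℚ (U ⊓ XM M : Submodule ℚ (PowerSeries ℚ)) :=
    Submodule.finiteDimensional_inf_left U (XM M)
  have h3 := Submodule.finrank_lt_finrank_of_lt hlt
  have h4 := hM (M + k + 1)
  omega

lemma range_fd (z : Module.End ℚ (PowerSeries ℚ)) (N : ℕ)
    (hz : ∀ h : PowerSeries ℚ, z (h * X ^ N) = 0) : FiniteDimensional ℚ (LinearMap.range z) := by
  have hle : LinearMap.range z ≤
      Submodule.span ℚ (Set.range fun i : Fin N => z ((X : PowerSeries ℚ) ^ (i : ℕ))) := by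
    rintro _ ⟨g, rfl⟩
    have hd : (X : PowerSeries ℚ) ^ N ∣
        g - ∑ i : Fin N, (coeff (i : ℕ) g) • (X : PowerSeries ℚ) ^ (i : ℕ) := by
      rw [X_pow_dvd_iff]
      intro m hm
      rw [map_sub, map_sum, sub_eq_zero]
      rw [Finset.sum_eq_single (⟨m, hm⟩ : Fin N)]
      · simp [coeff_X_pow]
      · intro j _ hj
        rw [map_smul, coeff_X_pow, if_neg, smul_zero]
        intro h
        apply hj
        exact Fin.ext h.symm
      · intro h
        exact absurd (Finset.mem_univ _) h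
    obtain ⟨h, hh⟩ := hd
    have h1 : z g = ∑ i : Fin N, (coeff (i : ℕ) g) • z ((X : PowerSeries ℚ) ^ (i : ℕ)) := by
      have h2 : g = h * X ^ N +
          ∑ i : Fin N, (coeff (i : ℕ) g) • (X : PowerSeries ℚ) ^ (i : ℕ) := by
        rw [mul_comm, ← hh, sub_add_cancel]
      conv_lhs => rw [h2]
      rw [map_add, hz, zero_add, map_sum]
      refine Finset.sum_congr rfl fun i _ => ?_
      rw [map_smul]
    rw [h1]
    exact Submodule.sum_mem _ fun i _ => Submodule.smul_mem _ _ (Submodule.subset_span ⟨i, rfl⟩)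
  have hf := FiniteDimensional.span_of_finite ℚ
    (Set.finite_range fun i : Fin N => z ((X : PowerSeries ℚ) ^ (i : ℕ)))
  exact Submodule.finiteDimensional_of_le hle

lemma reg_I0 (z : R0) (hz : I0 z) : ∃ u : R0, z * u * z = z := by
  obtain ⟨N, hN⟩ := hz
  have hfd := range_fd z.1 N hN
  obtain ⟨M, hM⟩ := exists_M (LinearMap.range z.1)
  obtain ⟨v, hv⟩ := vN z.1
  obtain ⟨w, hw⟩ := vN ((XM M).mkQ ∘ₗ z.1)
  have hq : ∀ h : PowerSeries ℚ, (XM M).mkQ (h * X ^ M) = 0 := by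
    intro h
    rw [Submodule.mkQ_apply, Submodule.Quotient.mk_eq_zero]
    exact ⟨h, rfl⟩
  have hzw : ∀ g, z.1 (w ((XM M).mkQ (z.1 g))) = z.1 g := by
    intro g
    have h1 := hw g
    simp only [LinearMap.comp_apply] at h1
    have h2 : z.1 (w ((XM M).mkQ (z.1 g))) - z.1 g = 0 := by
      apply hM
      · rw [← map_sub]
        exact LinearMap.mem_range_self _ _
      · rw [← Submodule.Quotient.mk_eq_zero (XM M), ← Submodule.mkQ_apply, map_sub, h1, sub_self]
    exact sub_eq_zero.mp h2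
  refine ⟨⟨v ∘ₗ z.1 ∘ₗ w ∘ₗ (XM M).mkQ, M, fun h => ?_⟩, ?_⟩
  · have h0 := hq 1
    rw [one_mul] at h0
    simp only [LinearMap.comp_apply]
    rw [hq h, h0]
    simp
  · apply Subtype.ext
    apply LinearMap.ext
    intro g
    show z.1 (v (z.1 (w ((XM M).mkQ (z.1 g))))) = z.1 g
    rw [hv, hzw]

theorem tReg : Pool.Agent.H494R3.NK.TaskReg := by
  intro x
  by_cases hx : I0 x
  · exact reg_I0 x hx
  obtain ⟨N, hN⟩ := x.2
  set c : PowerSeries ℚ := x.1 (X ^ N) with hc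
  have hc0 : c ≠ 0 := by
    intro h0
    exact hx ⟨N, fun h => by rw [hN, h0, mul_zero]⟩
  -- `c` divides a power of `X`
  obtain ⟨k, w, hkw⟩ : ∃ (k : ℕ) (w : PowerSeries ℚ), X ^ k = w * c := by
    classical
    have hex : ∃ k, coeff k c ≠ 0 := by
      by_contra hno
      push Not at hno
      exact hc0 (PowerSeries.ext fun n => by rw [hno n, map_zero])
    have hk := Nat.find_spec hex
    have hmin : ∀ m < Nat.find hex, coeff m c = 0 := fun m hm => not_not.mp (Nat.find_min hex hm)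
    obtain ⟨w, hw⟩ := X_pow_dvd_iff.mpr hmin
    have hw0 : constantCoeff w ≠ 0 := by
      intro h0
      apply hk
      have h1 := congrArg (coeff (Nat.find hex)) hw
      rw [h1]
      have h2 := coeff_X_pow_mul w (Nat.find hex) 0
      rw [zero_add] at h2
      rw [h2, coeff_zero_eq_constantCoeff_apply, h0]
    refine ⟨Nat.find hex, w⁻¹, ?_⟩
    conv_rhs => rw [hw]
    rw [mul_left_comm, PowerSeries.inv_mul_cancel w hw0, mul_one]
  obtain ⟨l, hl⟩ := (LinearMap.mulRight ℚ c).exists_leftInverse_of_injective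
    (LinearMap.ker_eq_bot.mpr (mul_left_injective₀ hc0))
  have hl2 : ∀ h : PowerSeries ℚ, l (h * c) = h := fun h => LinearMap.congr_fun hl h
  have hy : ∀ h : PowerSeries ℚ, (LinearMap.mulRight ℚ ((X : PowerSeries ℚ) ^ N) ∘ₗ l) (h * X ^ k) =
      h * (LinearMap.mulRight ℚ ((X : PowerSeries ℚ) ^ N) ∘ₗ l) (X ^ k) := by
    intro h
    simp only [LinearMap.comp_apply, LinearMap.mulRight_apply]
    rw [hkw, ← mul_assoc, hl2, hl2, mul_assoc]
  set y : R0 := ⟨LinearMap.mulRight ℚ ((X : PowerSeries ℚ) ^ N) ∘ₗ l, k, hy⟩ with hydef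
  have hz : I0 (x - x * y * x) := by
    refine ⟨N, fun h => ?_⟩
    show x.1 (h * X ^ N) - x.1 (l (x.1 (h * X ^ N)) * X ^ N) = 0
    rw [hN h, hl2, hN h, sub_self]
  obtain ⟨u, hu⟩ := reg_I0 _ hz
  refine ⟨y + (1 - y * x) * u * (1 - x * y), ?_⟩
  have e : x * (y + (1 - y * x) * u * (1 - x * y)) * x =
      x * y * x + (x - x * y * x) * u * (x - x * y * x) := by noncomm_ring
  rw [e, hu, add_sub_cancel]

end Pool.Agent.H798R3.NKReg
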